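import Pool.Agent.H20.AB.Bas

/-!
# Row NU1: numerical dimension one
-/

set_option linter.unusedSectionVars false

namespace Pool.AB4

open AlgebraicGeometry CategoryTheory Order Filter Topology

variable {Y : Scheme.{0}} [IsIntegral Y] [IsLocallyNoetherian Y] {s : Y ⟶ Spec (.of ℂ)}

/-- If the excess of sections is large, no closed point has a large Seshadri constant. -/
theorem no_sesh_of_excess (hN : Numbers s) (hP : Positivity s)
    (hW : ∀ (x : Pt Y) {L : Pic Y}, Ample L → ∀ {μ : ℝ}, 0 ≤ μ →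
      (∀ D : Div Y, (∀ p, 0 ≤ D p) → cl D = L → (mul (genericPoint Y) x.1 D : ℝ) ≤ μ) →
      24 * (h0 s L : ℝ) - dg s (genericPoint Y) L ≤ 96 * (μ + 1) ^ 3)
    {L : Pic Y} (hL : Ample L) {α v : ℝ} (hα : 0 < α) (hv : dg s (genericPoint Y) L ≤ v)
    (he : 96 * (v / α ^ 3 + 1) ^ 3 < 24 * (h0 s L : ℝ) - dg s (genericPoint Y) L)
    (x : Pt Y) : ¬ Sesh s (genericPoint Y) x L α := by
  intro hx
  have hspec := i4_diag hN hL
  have hpos := hN.pos (genericPoint Y) L hL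
  have hα3 : (0 : ℝ) < α ^ 3 := by positivity
  have hv0 : 0 ≤ v := hpos.le.trans hv
  have h := hW x hL (μ := v / α ^ 3) (by positivity) (fun D hD hDL => by
    have h1 := hP.seshadri4 x L α hL hα.le hx D hD
    rw [hDL, hspec] at h1
    rw [le_div_iff₀ hα3]
    exact h1.trans hv)
  exact absurd (he.trans_le h) (lt_irrefl _)

/-- For large `N` the excess `c N ^ 4` beats the cube of a linear function of `N`. -/
theorem large_N1 {c C : ℝ} (hc : 0 < c) (hC : 0 ≤ C) :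
    ∃ N₀ : ℕ, ∀ N : ℕ, N₀ ≤ N → 1 ≤ N →
      96 * (C * (N : ℝ) ^ 4 / ((N : ℝ) / 5) ^ 3 + 1) ^ 3 < c * ((N ^ 4 : ℕ) : ℝ) := by
  obtain ⟨N₀, hN₀⟩ := exists_nat_gt (96 * (125 * C + 1) ^ 3 / c)
  refine ⟨N₀, fun N h1 h2 => ?_⟩
  have hN1 : (1 : ℝ) ≤ N := by exact_mod_cast h2
  have hNpos : (0 : ℝ) < N := by linarith
  have hNN : (N₀ : ℝ) ≤ N := by exact_mod_cast h1
  have e1 : C * (N : ℝ) ^ 4 / ((N : ℝ) / 5) ^ 3 = 125 * C * N := by
    field_simp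
    ring
  rw [e1]
  have e2 : 125 * C * (N : ℝ) + 1 ≤ (125 * C + 1) * N := by nlinarith
  have e3 : (125 * C * (N : ℝ) + 1) ^ 3 ≤ ((125 * C + 1) * N) ^ 3 :=
    pow_le_pow_left₀ (by positivity) e2 3
  have e4 : 96 * (125 * C + 1) ^ 3 < c * N := by
    have := hN₀.trans_le hNN
    rw [div_lt_iff₀ hc] at this
    linarith
  have hN3 : (0 : ℝ) < (N : ℝ) ^ 3 := by positivity
  calc 96 * (125 * C * (N : ℝ) + 1) ^ 3 ≤ 96 * ((125 * C + 1) * N) ^ 3 := by linarith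
    _ = (96 * (125 * C + 1) ^ 3) * (N : ℝ) ^ 3 := by ring
    _ < (c * N) * (N : ℝ) ^ 3 := mul_lt_mul_of_pos_right e4 hN3
    _ = c * ((N ^ 4 : ℕ) : ℝ) := by push_cast; ring

/-- ROW NU1, from the rows WID4, COV and SMD. -/
theorem nu1_of (hN : Numbers s) (hP : Positivity s)
    (hW : ∀ (x : Pt Y) {L : Pic Y}, Ample L → ∀ {μ : ℝ}, 0 ≤ μ →
      (∀ D : Div Y, (∀ p, 0 ≤ D p) → cl D = L → (mul (genericPoint Y) x.1 D : ℝ) ≤ μ) →
      24 * (h0 s L : ℝ) - dg s (genericPoint Y) L ≤ 96 * (μ + 1) ^ 3)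
    (hCov : ∀ {w : Y}, 1 ≤ height w → ∀ {L : Pic Y}, Ample L → ∀ {α : ℝ}, 0 < α →
      ∀ {B : Set Y}, IsClosed B → w ∉ B →
      (∀ x : Pt Y, w ⤳ x.1 → x.1 ∉ B → ¬ Sesh s w x L α) →
      ∃ r : ℕ, 1 ≤ r ∧ (r : ℕ∞) ≤ height w ∧ ∃ Z : Set Y, IsClosed Z ∧ w ∈ Z ∧
        ∀ x : Pt Y, x.1 ∈ Z → ∃ y : Y, w ⤳ y ∧ y ⤳ x.1 ∧ height y = r ∧
          dg s y L ≤ (r * α) ^ r)
    (hSm : ∀ {M H : Pic Y}, Nef s M → Ample H → ∀ {m : ℕ}, 1 ≤ m → ∀ {y : Y},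
      1 ≤ height y → dg s y (m • M + H) < m → ∀ C : Cv Y, y ⤳ C.1 → i1 s C.1 M = 0)
    {M H : Pic Y} (hM : Nef s M) (hH : Ample H)
    (hvol : ∃ C : ℝ, ∀ m : ℕ, 1 ≤ m → dg s (genericPoint Y) (m • M + H) ≤ C * m)
    (hexc : Excess s M H 1) : Covered s M := by
  obtain ⟨C, hC⟩ := hvol
  obtain ⟨c, hc, m₀, hm₀⟩ := hexc
  have hC0 : 0 ≤ C := by
    have h1 := hC 1 le_rfl
    have h2 := hN.pos (genericPoint Y) _ (ample_add hN hM hH 1)
    rw [Nat.cast_one, mul_one] at h1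
    exact h2.le.trans h1
  obtain ⟨N₀, hN₀⟩ := large_N1 hc hC0
  obtain ⟨N, hN1, hNN, hNm⟩ : ∃ N : ℕ, 1 ≤ N ∧ N₀ ≤ N ∧ m₀ ≤ N ^ 4 := by
    refine ⟨max 1 (max N₀ m₀), le_max_left _ _, (le_max_left _ _).trans (le_max_right _ _), ?_⟩
    exact ((le_max_right _ _).trans (le_max_right _ _)).trans
      (Nat.le_self_pow (by norm_num) _)
  have hNr : (1 : ℝ) ≤ N := by exact_mod_cast hN1
  have hNpos : (0 : ℝ) < N := by linarith
  have hm1 : 1 ≤ N ^ 4 := Nat.one_le_pow _ _ (by omega)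
  set L : Pic Y := (N ^ 4) • M + H with hLdef
  have hL : Ample L := ample_add hN hM hH (N ^ 4)
  have hα : (0 : ℝ) < (N : ℝ) / 5 := by positivity
  have hv : dg s (genericPoint Y) L ≤ C * (N : ℝ) ^ 4 := by
    have := hC (N ^ 4) hm1
    push_cast at this
    exact this
  have he : 96 * (C * (N : ℝ) ^ 4 / ((N : ℝ) / 5) ^ 3 + 1) ^ 3 <
      24 * (h0 s L : ℝ) - dg s (genericPoint Y) L := by
    have h1 := hm₀ (N ^ 4) hNm
    rw [pow_one] at h1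
    exact (hN₀ N hNN hN1).trans_le h1
  have hno := no_sesh_of_excess hN hP hW hL hα hv he
  have hg : height (genericPoint Y) = 4 := height_generic hN
  obtain ⟨r, hr1, hr4, Z, hZ, hgZ, hZr⟩ := hCov (w := genericPoint Y)
    (by rw [hg]; decide) hL hα (B := ∅) isClosed_empty (by simp) (fun x _ _ => hno x)
  have hr4' : r ≤ 4 := by
    rw [hg] at hr4
    exact_mod_cast hr4
  have hlt : ((r : ℝ) * ((N : ℝ) / 5)) ^ r < ((N ^ 4 : ℕ) : ℝ) := by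
    push_cast
    have h1 : (1 : ℝ) ≤ r := by exact_mod_cast hr1
    have h2 : (r : ℝ) ≤ 4 := by exact_mod_cast hr4'
    interval_cases r
    · have : (N : ℝ) ≤ (N : ℝ) ^ 4 := le_self_pow₀ hNr (by norm_num)
      norm_num
      linarith
    · have : (N : ℝ) ^ 2 ≤ (N : ℝ) ^ 4 := pow_le_pow_right₀ hNr (by norm_num)
      have h5 : (0 : ℝ) < (N : ℝ) ^ 2 := by positivity
      norm_num
      nlinarith
    · have : (N : ℝ) ^ 3 ≤ (N : ℝ) ^ 4 := pow_le_pow_right₀ hNr (by norm_num)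
      have h5 : (0 : ℝ) < (N : ℝ) ^ 3 := by positivity
      norm_num
      nlinarith
    · have h5 : (0 : ℝ) < (N : ℝ) ^ 4 := by positivity
      norm_num
      nlinarith
  intro x
  have hxZ : x.1 ∈ Z := hZ.closure_subset_iff.2 (Set.singleton_subset_iff.2 hgZ)
    ((genericPoint_specializes x.1).mem_closure)
  obtain ⟨y, _, hyx, hyr, hdy⟩ := hZr x hxZ
  have hy1 : 1 ≤ height y := by
    rw [hyr]
    exact_mod_cast hr1
  have hCC := hSm hM hH hm1 hy1 (hdy.trans_lt hlt)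
  obtain ⟨D, hyD, hDx⟩ := hN.curve y x hyx hy1
  exact ⟨D, hDx, hCC D hyD⟩

end Pool.AB4
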